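import Pool.Agent.R505.Depth.Shal

set_option autoImplicit false

/-!
# Depth versus word length in the Grigorchuk group

`G = ⟨a, b, c, d⟩` is the first Grigorchuk group acting on the finite binary words and `len g` the word
length with respect to `{a, b, c, d}` (definitions of
`Pool/Agent/Results/MP_03d093_al/SphereBall.lean`; `false` is the letter `0`, `true` the letter `1`).
`depth g` is the least `n` such that all sections of `g` at level `n` are among `1, a, b, c, d`.

We determine `μ* = sup {μ : ∃ C, ∀ g ≠ 1, depth g ≥ μ log₂ (len g) + C}`: it is `log 2 / log l ≈ 0.7674`,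
where `l ≈ 2.4675` is the positive root of `l³ = l² + 2l + 4`.  In particular `μ* > 1/2`.
-/

namespace Pool.Agent.Results.MP_7efe7b_al.DepthConstant

open Pool.Agent.Results.MP_03d093_al.SphereBall

/-- Every section of `g` at level `n` is one of `1, a, b, c, d`: for every word `u` of length `n` there is
`h` among them with `g (u w) = g(u) h(w)` for all words `w`. -/
def Shallow (n : ℕ) (g : Equiv.Perm (List Bool)) : Prop :=
  ∀ u : List Bool, u.length = n →
    ∃ h : Equiv.Perm (List Bool), (h = 1 ∨ h = a ∨ h = b ∨ h = c ∨ h = d) ∧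
      ∀ w : List Bool, g (u ++ w) = g u ++ h w

/-- The depth of `g`: the least `n` such that every section of `g` at level `n` is one of
`1, a, b, c, d`. -/
noncomputable def depth (g : G) : ℕ := sInf {n : ℕ | Shallow n (g : Equiv.Perm (List Bool))}

/-- The set of all `μ` such that `depth g ≥ μ log₂ |g| + C` for some `C` and all `g ≠ 1`. -/
def Adm : Set ℝ :=
  {μ : ℝ | ∃ C : ℝ, ∀ g : G, g ≠ 1 → μ * Real.logb 2 (len g) + C ≤ (depth g : ℝ)}

open Pool.Agent.H776R2.Grig Pool.Agent.R505.Depth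

theorem depth_eq (g : G) : depth g = Pool.Agent.R505.Depth.depth g := rfl

theorem shallow_depth (g : G) : Shallow (depth g) (g : Equiv.Perm (List Bool)) :=
  Pool.Agent.R505.Depth.depth_spec g

theorem len_pos {g : G} (hg : g ≠ 1) : 1 ≤ len g := by
  by_contra h
  have h0 : len g = 0 := by omega
  obtain ⟨w, hw, hwg⟩ := exists_geod g
  rw [h0] at hw
  have : w = [] := List.length_eq_zero_iff.1 hw
  subst this
  exact hg (hwg.symm.trans (Subtype.ext rfl))

theorem upper : ∃ C : ℝ, 0 < C ∧ ∀ g : G, (len g : ℝ) ≤ C * ((depth g : ℝ) + 1) ^ 5 * lam ^ (depth g) := by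
  obtain ⟨C, hC, h⟩ := len_bound
  exact ⟨C, hC, fun g => h _ g (shallow_depth g)⟩

theorem lower : ∃ c : ℝ, 0 < c ∧ ∀ n : ℕ, 2 ≤ n → ∃ g : G, g ≠ 1 ∧ depth g ≤ n ∧
    c * lam ^ n ≤ (len g : ℝ) := by
  obtain ⟨C, hC, h⟩ := Pool.Agent.H776R2.Diam.lam_le_L
  refine ⟨1 / C, by positivity, fun n hn => ?_⟩
  obtain ⟨N, rfl⟩ : ∃ N, n = N + 2 := ⟨n - 2, by omega⟩
  obtain ⟨g, h1, h2, h3⟩ := low N
  refine ⟨g, h3, h1, ?_⟩
  have h4 := h (N + 2) (by omega)
  have h5 : (Pool.Agent.Results.MP_b99418_al.ExactLength.L (N + 2) : ℝ) ≤ len g := by exact_mod_cast h2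
  rw [one_div, inv_mul_le_iff₀ hC]
  exact h4.trans (mul_le_mul_of_nonneg_left h5 hC.le)

theorem log_lam_pos : 0 < Real.log lam := Real.log_pos (by have := lam_gt; linarith)

theorem log_two_pos : 0 < Real.log 2 := Real.log_pos (by norm_num)

theorem mem_adm {μ : ℝ} (hμ : μ < Real.log 2 / Real.log lam) : μ ∈ Adm := by
  have hl := log_lam_pos
  have h2 := log_two_pos
  rcases le_or_gt μ 0 with h0 | h0
  · refine ⟨0, fun g hg => ?_⟩
    have h1 : (1 : ℝ) ≤ len g := by exact_mod_cast len_pos hg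
    have h3 : 0 ≤ Real.logb 2 (len g) := Real.logb_nonneg (by norm_num) h1
    have h4 : μ * Real.logb 2 (len g) ≤ 0 := mul_nonpos_of_nonpos_of_nonneg h0 h3
    have h5 : (0 : ℝ) ≤ depth g := Nat.cast_nonneg _
    linarith
  · obtain ⟨C, hC, hup⟩ := upper
    set K1 : ℝ := μ / Real.log 2 with hK1
    have hK1pos : 0 < K1 := by positivity
    set θ : ℝ := K1 * Real.log lam with hθ
    have hθ1 : θ < 1 := by
      rw [hθ, hK1, div_mul_eq_mul_div, div_lt_one h2]
      rwa [lt_div_iff₀ hl] at hμ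
    set ε : ℝ := (1 - θ) / (5 * K1) with hε
    have hεpos : 0 < ε := by
      have : 0 < 1 - θ := by linarith
      positivity
    refine ⟨-(K1 * Real.log C + (1 - θ) + 5 * K1 * (-1 - Real.log ε)), fun g hg => ?_⟩
    have h1 : (1 : ℝ) ≤ len g := by exact_mod_cast len_pos hg
    have hlpos : (0 : ℝ) < len g := by linarith
    set D : ℝ := (depth g : ℝ) with hD
    have hD0 : 0 ≤ D := Nat.cast_nonneg _
    have hlog : Real.log (len g) ≤ Real.log C + 5 * Real.log (D + 1) + D * Real.log lam := by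
      have h3 := Real.log_le_log hlpos (hup g)
      have hlp := lam_pos
      rw [Real.log_mul (by positivity) (by positivity), Real.log_mul (by positivity) (by positivity),
        Real.log_pow, Real.log_pow] at h3
      push_cast at h3
      exact h3
    have hlogb : μ * Real.logb 2 (len g) = K1 * Real.log (len g) := by
      rw [Real.logb, hK1]
      ring
    have hineq : Real.log (D + 1) ≤ ε * (D + 1) - 1 - Real.log ε := by
      have h3 := Real.log_le_sub_one_of_pos (show 0 < ε * (D + 1) by positivity)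
      rw [Real.log_mul hεpos.ne' (by positivity)] at h3
      linarith
    have hKε : 5 * K1 * ε = 1 - θ := by
      rw [hε]
      field_simp
    rw [hlogb]
    have h4 : K1 * Real.log (len g) ≤ K1 * (Real.log C + 5 * Real.log (D + 1) + D * Real.log lam) :=
      mul_le_mul_of_nonneg_left hlog hK1pos.le
    have h5 : 5 * K1 * Real.log (D + 1) ≤ 5 * K1 * (ε * (D + 1) - 1 - Real.log ε) :=
      mul_le_mul_of_nonneg_left hineq (by positivity)
    have h6 : 5 * K1 * (ε * (D + 1) - 1 - Real.log ε) =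
        (1 - θ) * (D + 1) + 5 * K1 * (-1 - Real.log ε) := by
      rw [← hKε]; ring
    have h7 : K1 * (Real.log C + 5 * Real.log (D + 1) + D * Real.log lam) =
        K1 * Real.log C + 5 * K1 * Real.log (D + 1) + D * θ := by
      rw [hθ]; ring
    have h8 : (1 - θ) * (D + 1) = (1 - θ) + D - θ * D := by ring
    linarith [mul_comm D θ]

theorem isLUB_adm : IsLUB Adm (Real.log 2 / Real.log lam) := by
  have hl := log_lam_pos
  have h2 := log_two_pos
  constructor
  · rintro μ ⟨C', hμ⟩
    by_contra hlt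
    push Not at hlt
    have hα : 0 < Real.log 2 / Real.log lam := by positivity
    have hμ0 : 0 < μ := hα.trans hlt
    obtain ⟨c, hc, hlow⟩ := lower
    set K1 : ℝ := μ / Real.log 2 with hK1
    have hK1pos : 0 < K1 := by positivity
    set θ : ℝ := K1 * Real.log lam with hθ
    have hθ1 : 1 < θ := by
      rw [hθ, hK1, div_mul_eq_mul_div, one_lt_div h2]
      rwa [div_lt_iff₀ hl] at hlt
    have key : ∀ n : ℕ, 2 ≤ n → (θ - 1) * n ≤ -(K1 * Real.log c) - C' := by
      intro n hn
      obtain ⟨g, hg, hgd, hgl⟩ := hlow n hn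
      have h3 := hμ g hg
      have hlp := lam_pos
      have h4 := Real.log_le_log (by positivity : 0 < c * lam ^ n) hgl
      rw [Real.log_mul hc.ne' (by positivity), Real.log_pow] at h4
      have hlogb : μ * Real.logb 2 (len g) = K1 * Real.log (len g) := by
        rw [Real.logb, hK1]
        ring
      rw [hlogb] at h3
      have h5 : (depth g : ℝ) ≤ n := by exact_mod_cast hgd
      have h6 : K1 * (Real.log c + n * Real.log lam) ≤ K1 * Real.log (len g) :=
        mul_le_mul_of_nonneg_left h4 hK1pos.le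
      have h7 : K1 * (Real.log c + n * Real.log lam) = K1 * Real.log c + n * θ := by
        rw [hθ]; ring
      have h8 : (θ - 1) * (n : ℝ) = n * θ - n := by ring
      linarith
    obtain ⟨m, hm⟩ := exists_nat_gt ((-(K1 * Real.log c) - C') / (θ - 1))
    have h9 := key (m + 2) (by omega)
    have hθ0 : 0 < θ - 1 := by linarith
    rw [div_lt_iff₀ hθ0] at hm
    push_cast at h9
    nlinarith
  · intro x hx
    by_contra hlt
    push Not at hlt
    obtain ⟨y, hy1, hy2⟩ := exists_between hlt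
    have := hx (mem_adm hy2)
    linarith

theorem ratio_gt : 0.76 < Real.log 2 / Real.log lam := by
  have hl := log_lam_pos
  rw [lt_div_iff₀ hl]
  have h1 : lam ^ 19 < 2 ^ 25 := by
    have h2 : lam ^ 19 < (2.468 : ℝ) ^ 19 := pow_lt_pow_left₀ lam_lt lam_pos.le (by norm_num)
    refine h2.trans ?_
    norm_num
  have h3 := Real.log_lt_log (pow_pos lam_pos 19) h1
  rw [Real.log_pow, Real.log_pow] at h3
  push_cast at h3
  linarith

theorem ratio_lt : Real.log 2 / Real.log lam < 0.77 := by
  have hl := log_lam_pos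
  rw [div_lt_iff₀ hl]
  have h1 : (2 : ℝ) ^ 100 < lam ^ 77 := by
    have h2 : (2.465 : ℝ) ^ 77 < lam ^ 77 := pow_lt_pow_left₀ lam_gt (by norm_num) (by norm_num)
    refine lt_trans ?_ h2
    norm_num
  have h3 := Real.log_lt_log (by positivity) h1
  rw [Real.log_pow, Real.log_pow] at h3
  push_cast at h3
  linarith

/-- **Main result.** For the first Grigorchuk group `G`, its word length `len` with respect to
`{a, b, c, d}` and the depth `depth`:
* the depth is attained (the sections of `g` at level `depth g` are among `1, a, b, c, d`);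
* (Q1) there are `μ > 1/2` and `C` with `depth g ≥ μ log₂ |g| + C` for all `g ≠ 1`;
* (Q2) with `l` the positive root of `l³ = l² + 2l + 4` (`2.465 < l < 2.468`), the supremum of all `μ` for
  which such a `C` exists is `μ* = log 2 / log l`, and `0.76 < μ* < 0.77`;
* more precisely `|g| ≤ C (depth g + 1)⁵ l^(depth g)` for all `g`, and for every `n ≥ 2` there is `g ≠ 1` with
  `depth g ≤ n` and `|g| ≥ c lⁿ`. -/
theorem result :
    (∀ g : G, Shallow (depth g) (g : Equiv.Perm (List Bool))) ∧
    (∃ μ C : ℝ, 1 / 2 < μ ∧ ∀ g : G, g ≠ 1 → μ * Real.logb 2 (len g) + C ≤ (depth g : ℝ)) ∧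
    ∃ l : ℝ, 0 < l ∧ l ^ 3 = l ^ 2 + 2 * l + 4 ∧ 2.465 < l ∧ l < 2.468 ∧
      IsLUB {μ : ℝ | ∃ C : ℝ, ∀ g : G, g ≠ 1 → μ * Real.logb 2 (len g) + C ≤ (depth g : ℝ)}
        (Real.log 2 / Real.log l) ∧
      0.76 < Real.log 2 / Real.log l ∧ Real.log 2 / Real.log l < 0.77 ∧
      (∃ C : ℝ, 0 < C ∧ ∀ g : G, (len g : ℝ) ≤ C * ((depth g : ℝ) + 1) ^ 5 * l ^ (depth g)) ∧
      (∃ c : ℝ, 0 < c ∧ ∀ n : ℕ, 2 ≤ n → ∃ g : G, g ≠ 1 ∧ depth g ≤ n ∧ c * l ^ n ≤ (len g : ℝ)) := by
  have hgt := ratio_gt
  obtain ⟨C, hC⟩ := mem_adm (μ := 0.6) (by linarith)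
  exact ⟨shallow_depth, ⟨0.6, C, by norm_num, hC⟩, lam, lam_pos, lam_eq, lam_gt, lam_lt, isLUB_adm, hgt,
    ratio_lt, upper, lower⟩

end Pool.Agent.Results.MP_7efe7b_al.DepthConstant
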